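import Mathlib
import Pool.Agent.H918R2.Gal3

set_option autoImplicit false

open Pool.Agent.Helper947.Crv Pool.Agent.H918R2

namespace Pool.Agent.Results.MP_042496_ag.FieldOfDefinition

theorem exists_moving {a : AlgebraicClosure ℚ}
    (ha : a ∉ (⊥ : IntermediateField ℚ (AlgebraicClosure ℚ))) :
    ∃ σ : AlgebraicClosure ℚ ≃ₐ[ℚ] AlgebraicClosure ℚ, σ a ≠ a := by
  by_contra hcon0
  have hcon : ∀ σ : AlgebraicClosure ℚ ≃ₐ[ℚ] AlgebraicClosure ℚ, σ a = a :=
    fun σ => by_contra fun h => hcon0 ⟨σ, h⟩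
  apply ha
  have halg : Algebra.IsAlgebraic ℚ (AlgebraicClosure ℚ) := AlgebraicClosure.isAlgebraic ℚ
  have : IsSepClosure ℚ (AlgebraicClosure ℚ) := ⟨inferInstance, inferInstance⟩
  have : IsGalois ℚ (AlgebraicClosure ℚ) := inferInstance
  exact (InfiniteGalois.mem_bot_iff_fixed (k := ℚ) (K := AlgebraicClosure ℚ) a).2 hcon

/-- For every number field `F` there is a Hilbert scheme of curves in projective 3-space which has,
over the algebraic numbers, an irreducible component `Z` such that every Galois automorphism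
which fixes `Z` is the identity on `F`; in particular `Z` is not fixed by the Galois
group if `F` is not the field of rational numbers. -/
theorem result (F : IntermediateField ℚ (AlgebraicClosure ℚ)) (hF : FiniteDimensional ℚ F) :
    ∃ d g : ℤ, Nonempty (HilbertScheme d g) ∧ ∀ 𝓗 : HilbertScheme d g,
      ∃ Z ∈ irreducibleComponents (bc 𝓗 (AlgebraicClosure ℚ)),
        (∀ σ : AlgebraicClosure ℚ ≃ₐ[ℚ] AlgebraicClosure ℚ,
          galAct 𝓗 σ.toRingEquiv '' Z = Z → ∀ a ∈ F, σ a = a) ∧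
        (F ≠ ⊥ → ∃ σ : AlgebraicClosure ℚ ≃ₐ[ℚ] AlgebraicClosure ℚ,
          galAct 𝓗 σ.toRingEquiv '' Z ≠ Z) := by
  obtain ⟨d, g, h1, h2⟩ := main_gal' F
  refine ⟨d, g, h1, fun 𝓗 => ?_⟩
  obtain ⟨Z, hZ, h3⟩ := h2 𝓗
  refine ⟨Z, hZ, h3, fun hF => ?_⟩
  have hF' : ¬ ∀ a ∈ F, a ∈ (⊥ : IntermediateField ℚ (AlgebraicClosure ℚ)) :=
    fun h => hF (le_bot_iff.1 h)
  push Not at hF'
  obtain ⟨a, ha, ha'⟩ := hF'
  obtain ⟨σ, hσ⟩ := exists_moving ha'
  exact ⟨σ, fun h => hσ (h3 σ h a ha)⟩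

end Pool.Agent.Results.MP_042496_ag.FieldOfDefinition
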